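import Mathlib
import Pool.Agent.H9.KTao

set_option autoImplicit false

namespace Pool.Agent.Results.MP_bb5cc8_nt.Power

open Classical in
/-- `S_a(N)`: the number of `n ∈ {1,…,N}` lying in the class `a p` for some prime
`N^α ≤ p < 2 N^α`. -/
noncomputable def cover (α : ℝ) (N : ℕ) (a : (p : ℕ) → ZMod p) : ℕ :=
  ((Finset.Icc 1 N).filter fun n : ℕ =>
    ∃ p : ℕ, p.Prime ∧ (N : ℝ) ^ α ≤ p ∧ (p : ℝ) < 2 * (N : ℝ) ^ α ∧ (n : ZMod p) = a p).card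

theorem result (α : ℝ) (h1 : 1 / 2 ≤ α) (h2 : α < 1) :
    ∃ N0 : ℕ, ∀ N ≥ N0, ∀ a : (p : ℕ) → ZMod p,
      (N : ℝ) ^ (1 - 3 * α / 7) / (112 * Real.log N) ≤ (cover α N a : ℝ) :=
  Pool.Agent.H9.KTao.main α h1 h2

end Pool.Agent.Results.MP_bb5cc8_nt.Power
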